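import Mathlib
import Pool.Agent.Lib.P1ea79a.Norm

set_option autoImplicit false

namespace Pool.Agent.Results.MP_1ea79a_co.PolygonalFinite

/-- `N` is a norm on `ℝⁿ`. -/
structure IsNorm {n : ℕ} (N : (Fin n → ℝ) → ℝ) : Prop where
  pos : ∀ x, x ≠ 0 → 0 < N x
  smul : ∀ (r : ℝ) (x : Fin n → ℝ), N (r • x) = |r| * N x
  add_le : ∀ x y, N (x + y) ≤ N x + N y

/-- `N` is polygonal: its closed unit ball is a convex polytope (the convex hull of a finite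
set of points). -/
def Polygonal {n : ℕ} (N : (Fin n → ℝ) → ℝ) : Prop :=
  ∃ V : Set (Fin n → ℝ), V.Finite ∧ {x | N x ≤ 1} = convexHull ℝ V

/-- `M'` is an `N`-isometric copy of `M`: the image of `M` under a bijection `M → M'` which
preserves all `N`-distances. -/
def IsCopy {n : ℕ} (N : (Fin n → ℝ) → ℝ) (M M' : Set (Fin n → ℝ)) : Prop :=
  ∃ f : (Fin n → ℝ) → (Fin n → ℝ), Set.BijOn f M M' ∧
    ∀ x ∈ M, ∀ y ∈ M, N (f x - f y) = N (x - y)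

/-- Some colouring of `ℝⁿ` with `k` colours has no monochromatic `N`-isometric copy of `M`. -/
def Avoidable {n : ℕ} (N : (Fin n → ℝ) → ℝ) (M : Set (Fin n → ℝ)) (k : ℕ) : Prop :=
  ∃ c : (Fin n → ℝ) → Fin k, ∀ M' : Set (Fin n → ℝ), IsCopy N M M' →
    ¬ ∃ i : Fin k, ∀ x ∈ M', c x = i

/-- `χ(ℝⁿ, N, M)`: the least number of colours `k` such that some colouring of `ℝⁿ` with `k`
colours has no monochromatic `N`-isometric copy of `M` (`⊤` if there is no such `k`). -/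
noncomputable def chi {n : ℕ} (N : (Fin n → ℝ) → ℝ) (M : Set (Fin n → ℝ)) : ℕ∞ :=
  ⨅ k ∈ {k : ℕ | Avoidable N M k}, (k : ℕ∞)

/-- For every polygonal norm `N` on `ℝⁿ` and every infinite `M ⊆ ℝⁿ`: `χ(ℝⁿ, N, M) ≤ n + 1`;
moreover `M` has a finite subset `M₀` with `χ(ℝⁿ, N, M₀) ≤ n + 1`. -/
theorem result : ∀ (n : ℕ) (N : (Fin n → ℝ) → ℝ), IsNorm N → Polygonal N →
    ∀ M : Set (Fin n → ℝ), M.Infinite →
      chi N M ≤ ((n + 1 : ℕ) : ℕ∞) ∧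
      ∃ M₀ : Set (Fin n → ℝ), M₀ ⊆ M ∧ M₀.Finite ∧ chi N M₀ ≤ ((n + 1 : ℕ) : ℕ∞) := by
  intro n N hN hP M hM
  obtain ⟨V, hV, hball⟩ := hP
  obtain ⟨m, a, ha⟩ := Pool.Agent.Lib.P1ea79a.exists_nrm N hN.pos hN.smul hN.add_le V hV hball
  have hpos : ∀ x : Fin n → ℝ, x ≠ 0 → 0 < Pool.Agent.Lib.P1ea79a.nrm a x := by
    intro x hx
    rw [← ha]; exact hN.pos x hx
  obtain ⟨M₀, hsub, hfin, c, hc⟩ := Pool.Agent.Lib.P1ea79a.mainFin n m a hpos M hM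
  have h0 : Avoidable N M₀ (n + 1) := by
    refine ⟨c, ?_⟩
    rintro M' ⟨f, hf, hd⟩ ⟨i, hi⟩
    refine hc f (fun x hx y hy => ?_) ⟨i, fun x hx => hi _ (hf.mapsTo hx)⟩
    rw [← ha, ← ha]; exact hd x hx y hy
  have h1 : Avoidable N M (n + 1) := by
    refine ⟨c, ?_⟩
    rintro M' ⟨f, hf, hd⟩ ⟨i, hi⟩
    refine hc f (fun x hx y hy => ?_) ⟨i, fun x hx => hi _ (hf.mapsTo (hsub hx))⟩
    rw [← ha, ← ha]; exact hd x (hsub hx) y (hsub hy)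
  exact ⟨iInf₂_le (n + 1) h1, M₀, hsub, hfin, iInf₂_le (n + 1) h0⟩

end Pool.Agent.Results.MP_1ea79a_co.PolygonalFinite
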